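import Pool.Agent.W569.UF.DefsC

set_option autoImplicit false

/-!
# Minkowski's bound excludes unramified cyclic extensions of degree `p` of `ℚ(ζ_p)`, `p ≤ 7`
-/

namespace Pool.Agent.W460.UF

open Pool.Agent.W569.UF NumberField Module

theorem isCyc (p : ℕ) (hp : p.Prime) : IsCyclotomicExtension {p} ℚ (KK p) := by
  have : NeZero (p : AlgebraicClosure ℚ) := ⟨Nat.cast_ne_zero.2 hp.ne_zero⟩
  have h := IntermediateField.isCyclotomicExtension_adjoin_of_exists_isPrimitiveRoot {p} ℚ
    (AlgebraicClosure ℚ) (fun n hn _ => by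
      rw [Set.mem_singleton_iff] at hn
      subst hn
      exact HasEnoughRootsOfUnity.exists_primitiveRoot _ _)
  have hs : {b : AlgebraicClosure ℚ | ∃ n ∈ ({p} : Set ℕ), n ≠ 0 ∧ b ^ n = 1} =
      {z : AlgebraicClosure ℚ | z ^ p = 1} := by
    ext z
    constructor
    · rintro ⟨n, hn, -, h1⟩
      rw [Set.mem_singleton_iff] at hn
      subst hn
      exact h1
    · intro h1
      exact ⟨p, rfl, hp.ne_zero, h1⟩
  rw [hs] at h
  exact h

theorem discr_KK (p : ℕ) (hp : p.Prime) (i : NumberField (KK p)) :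
    |discr (KK p)| = (p : ℤ) ^ (p - 2) := by
  have : Fact p.Prime := ⟨hp⟩
  have := isCyc p hp
  rw [IsCyclotomicExtension.Rat.discr_prime p (KK p), abs_mul, abs_pow, abs_neg, abs_one, one_pow,
    one_mul, abs_of_nonneg (by positivity)]

/-- the numerical contradiction -/
theorem key (L : Type) [Field L] [NumberField L] (n D : ℕ) (hn : finrank ℚ L = n)
    (hD : |discr L| = D)
    (hnum : 40000 ^ n * n.factorial ^ 2 * D < n ^ (2 * n) * 31415 ^ n) : False := by
  have h1 := abs_discr_ge' L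
  rw [hn, hD] at h1
  have hr : 2 * InfinitePlace.nrComplexPlaces L ≤ n := by
    have := InfinitePlace.card_add_two_mul_card_eq_rank L
    omega
  have hpi : (1 : ℝ) ≤ 4 / Real.pi := by
    rw [le_div_iff₀ Real.pi_pos, one_mul]
    exact Real.pi_le_four
  have h2 : (4 / Real.pi) ^ (2 * InfinitePlace.nrComplexPlaces L) ≤ (4 / Real.pi) ^ n :=
    pow_le_pow_right₀ hpi hr
  have h3 : (4 / Real.pi) ^ n ≤ (40000 / 31415 : ℝ) ^ n := by
    refine pow_le_pow_left₀ (by linarith) ?_ n
    rw [div_le_div_iff₀ Real.pi_pos (by norm_num)]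
    have := Real.pi_gt_d4
    nlinarith
  have hf : (0 : ℝ) < (n.factorial : ℝ) ^ 2 := by positivity
  rw [div_le_iff₀ (by positivity)] at h1
  have h4 : (n : ℝ) ^ (2 * n) ≤ (D : ℝ) * ((40000 / 31415 : ℝ) ^ n * (n.factorial : ℝ) ^ 2) := by
    refine h1.trans ?_
    push_cast
    exact mul_le_mul_of_nonneg_left (mul_le_mul_of_nonneg_right (h2.trans h3) hf.le)
      (Nat.cast_nonneg D)
  have h5 : (n : ℝ) ^ (2 * n) * 31415 ^ n ≤ 40000 ^ n * (n.factorial : ℝ) ^ 2 * (D : ℝ) := by
    rw [div_pow] at h4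
    have h6 := mul_le_mul_of_nonneg_right h4 (by positivity : (0 : ℝ) ≤ 31415 ^ n)
    refine h6.trans (le_of_eq ?_)
    field_simp
  have h7 : ((40000 ^ n * n.factorial ^ 2 * D : ℕ) : ℝ) < ((n ^ (2 * n) * 31415 ^ n : ℕ) : ℝ) :=
    Nat.cast_lt.2 hnum
  push_cast at h7
  linarith

theorem main : S_MINK := by
  intro p hp hp7 L i1 i2 _ hfin hdis
  rw [discr_KK p hp i2, ← pow_mul] at hdis
  have hcases : p = 2 ∨ p = 3 ∨ p = 5 ∨ p = 7 := by
    have h2 := hp.two_le
    interval_cases p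
    · exact Or.inl rfl
    · exact Or.inr (Or.inl rfl)
    · exact absurd hp (by norm_num)
    · exact Or.inr (Or.inr (Or.inl rfl))
    · exact absurd hp (by norm_num)
    · exact Or.inr (Or.inr (Or.inr rfl))
  rcases hcases with rfl | rfl | rfl | rfl
  · have h := abs_discr_gt_two (K := L) (by rw [hfin]; norm_num)
    rw [hdis] at h
    norm_num at h
  · refine key L 6 27 (by rw [hfin]) (by rw [hdis]; norm_num) (by norm_num [Nat.factorial])
  · refine key L 20 (5 ^ 15) (by rw [hfin]) (by rw [hdis]; norm_num) (by norm_num [Nat.factorial])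
  · refine key L 42 (7 ^ 35) (by rw [hfin]) (by rw [hdis]; norm_num) (by norm_num [Nat.factorial])

end Pool.Agent.W460.UF
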